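import Pool.Agent.Y560.TG.Stm

/-!
Project TG: transfer of back-and-forth equivalence to definable expansions (EXT), labels, classes
and names (TRQ).
-/

set_option autoImplicit false
set_option linter.all false

namespace Pool.Agent.Y275.TG

open Set
open Pool.Agent.H899R2.VP (St Adj PIso BF IsoOn idOn inv comp zipSet BF_iff BF_of_total)
open Pool.Agent.H533R2.VO (RS lift RIso)
open Pool.Agent.H566P (ar R2 lt ac co mk)
open Pool.Agent.Y560.TG

theorem t_EXT : S_EXT := by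
  intro M M' N N' X X' Y Y' p r k hY hY' H
  have key : ∀ (o : Ordinal.{0}) (q : Set (ℕ × ℕ)), p ⊆ q →
      BF (lift M) (lift M') X X' (k + o) q →
      BF (lift N) (lift N') Y Y' o ({u | u ∈ q ∧ u.1 ∈ Y} ∪ r) := by
    intro o
    induction o using WellFoundedLT.induction with
    | ind o ih =>
      intro q hq h
      have hk : ∀ {o' : Ordinal.{0}} {q' : Set (ℕ × ℕ)}, BF (lift M) (lift M') X X' (k + o') q' →
          BF (lift M) (lift M') X X' k q' := fun h' => h'.mono le_self_add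
      rw [BF_iff]
      refine ⟨(H q hq (hk h)).1, fun o' ho' => ⟨fun x hx => ?_, fun y hy => ?_⟩⟩
      · have hlt : k + o' < k + o := by gcongr
        obtain ⟨y, hy, hb⟩ := h.forth hlt (hY hx)
        have hq' : p ⊆ insert (x, y) q := hq.trans (subset_insert _ _)
        have hm := (H _ hq' (hk hb)).2 (x, y) (mem_insert _ _)
        refine ⟨y, hm.1 hx, (ih o' ho' _ hq' hb).subset ?_⟩
        rintro u (rfl | hu | hu)
        · exact Or.inl ⟨mem_insert _ _, hx⟩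
        · exact Or.inl ⟨mem_insert_of_mem _ hu.1, hu.2⟩
        · exact Or.inr hu
      · have hlt : k + o' < k + o := by gcongr
        obtain ⟨x, hx, hb⟩ := h.back hlt (hY' hy)
        have hq' : p ⊆ insert (x, y) q := hq.trans (subset_insert _ _)
        have hm := (H _ hq' (hk hb)).2 (x, y) (mem_insert _ _)
        have hxY : x ∈ Y := hm.2 hy
        refine ⟨x, hxY, (ih o' ho' _ hq' hb).subset ?_⟩
        rintro u (rfl | hu | hu)
        · exact Or.inl ⟨mem_insert _ _, hxY⟩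
        · exact Or.inl ⟨mem_insert_of_mem _ hu.1, hu.2⟩
        · exact Or.inr hu
  intro o h
  exact key o p subset_rfl h

theorem q1 {R R' : R2} {q : Set (ℕ × ℕ)} {y y' v v' m : ℕ}
    (h : BF (lift R) (lift R') univ univ 1 q) (hy : (y, y') ∈ q) (hv : (v, v') ∈ q) :
    Q R y m v ↔ Q R' y' m v' := by
  obtain ⟨k, rfl | rfl⟩ : ∃ k, m = 2 * k ∨ m = 2 * k + 1 := ⟨m / 2, by omega⟩
  · rw [Q_even, Q_even]
    constructor
    · rintro ⟨z, h1, h2⟩
      obtain ⟨z', -, hb⟩ := h.forth (o' := 0) zero_lt_one (mem_univ z)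
      have hz : (z, z') ∈ insert (z, z') q := mem_insert _ _
      have hp := hb.piso
      exact ⟨z', (piso_ac hp (mem_insert_of_mem _ hy) hz).1 h1,
        (piso_lt hp hz (mem_insert_of_mem _ hv)).1 h2⟩
    · rintro ⟨z', h1, h2⟩
      obtain ⟨z, -, hb⟩ := h.back (o' := 0) zero_lt_one (mem_univ z')
      have hz : (z, z') ∈ insert (z, z') q := mem_insert _ _
      have hp := hb.piso
      exact ⟨z, (piso_ac hp (mem_insert_of_mem _ hy) hz).2 h1,
        (piso_lt hp hz (mem_insert_of_mem _ hv)).2 h2⟩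
  · rw [Q_odd, Q_odd]
    exact piso_ac h.piso hy hv

theorem sl1 {R R' : R2} {q : Set (ℕ × ℕ)} {u u' z z' w w' : ℕ}
    (h : BF (lift R) (lift R') univ univ 1 q) (hu : (u, u') ∈ q) (hz : (z, z') ∈ q)
    (hw : (w, w') ∈ q) : sl R u z w ↔ sl R' u' z' w' := by
  unfold sl
  refine forall_congr' fun m => ?_
  rw [q1 h hu hz, q1 h hu hw]

theorem ob1 {R R' : R2} {q : Set (ℕ × ℕ)} {u u' v v' t t' : ℕ}
    (h : BF (lift R) (lift R') univ univ 3 q) (hu : (u, u') ∈ q) (hv : (v, v') ∈ q)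
    (ht : (t, t') ∈ q) (hm : t ∈ Ob R u v) : t' ∈ Ob R' u' v' := by
  obtain ⟨n, m, z, w, h1, h2, h3, h4, h5⟩ := hm
  obtain ⟨z', -, hb⟩ := h.forth (o' := 2) (by norm_num) (mem_univ z)
  obtain ⟨w', -, hc⟩ := hb.forth (o' := 1) (by norm_num) (mem_univ w)
  have hp := hc.piso
  have e1 : ∀ {a : ℕ × ℕ}, a ∈ q → a ∈ insert (w, w') (insert (z, z') q) := fun ha =>
    mem_insert_of_mem _ (mem_insert_of_mem _ ha)
  have ez : (z, z') ∈ insert (w, w') (insert (z, z') q) :=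
    mem_insert_of_mem _ (mem_insert _ _)
  have ew : (w, w') ∈ insert (w, w') (insert (z, z') q) := mem_insert _ _
  exact ⟨n, m, z', w', (piso_ac hp (e1 hv) ez).1 h1, (piso_ac hp (e1 hv) ew).1 h2,
    fun h => h3 ((piso_lt hp (e1 ht) ez).2 h), fun h => h4 ((piso_lt hp ew (e1 ht)).2 h),
    (sl1 hc (e1 hu) ez ew).1 h5⟩

theorem ob2 {R R' : R2} {q : Set (ℕ × ℕ)} {u u' v v' t t' : ℕ}
    (h : BF (lift R) (lift R') univ univ 3 q) (hu : (u, u') ∈ q) (hv : (v, v') ∈ q)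
    (ht : (t, t') ∈ q) : t ∈ Ob R u v ↔ t' ∈ Ob R' u' v' :=
  ⟨ob1 h hu hv ht, ob1 h.symm hu hv ht⟩

theorem piso_lb {R R' : R2} {q s : Set (ℕ × ℕ)} {u u' : ℕ}
    (h : BF (lift R) (lift R') univ univ 1 q) (hu : (u, u') ∈ q) (hs : s ⊆ q) :
    PIso (lift (lb R u)) (lift (lb R' u')) s := by
  unfold lb
  rw [piso_ex]
  exact ⟨h.piso.mono hs, fun k w hw => q1 h hu (hs hw)⟩

theorem nm_fwd {R V : R2} {O : Set ℕ} {q : Set (ℕ × ℕ)}
    (h : BF (lift (Nm O R)) (lift (Nm O V)) univ univ 2 q) :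
    PIso (lift R) (lift V) (q ∪ idOn Oᶜ) := by
  -- the elements with names are fixed
  have name : ∀ {s : Set (ℕ × ℕ)} {a y : ℕ}, PIso (lift (Nm O R)) (lift (Nm O V)) s → a ∉ O →
      (a, y) ∈ s → y = a := by
    intro s a y hs ha hay
    unfold Nm at hs
    rw [piso_ex] at hs
    exact ((hs.2 a (a, y) hay).1 ⟨rfl, ha⟩).1
  have ext1 : ∀ {o o' : Ordinal.{0}} {s : Set (ℕ × ℕ)} {w : ℕ × ℕ}, o' < o →
      BF (lift (Nm O R)) (lift (Nm O V)) univ univ o s → w ∈ q ∪ idOn Oᶜ → q ⊆ s →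
      ∃ s', s ⊆ s' ∧ w ∈ s' ∧ BF (lift (Nm O R)) (lift (Nm O V)) univ univ o' s' := by
    rintro o o' s ⟨a, b⟩ ho hs hw hqs
    rcases hw with hw | ⟨h1, h2⟩
    · exact ⟨s, subset_rfl, hqs hw, hs.mono ho.le⟩
    · simp only at h1 h2
      subst h1
      obtain ⟨y, -, hb⟩ := hs.forth ho (mem_univ a)
      have hy : y = a := name hb.piso h2 (mem_insert _ _)
      subst hy
      exact ⟨_, subset_insert _ _, mem_insert _ _, hb⟩
  have two : ∀ {w w' : ℕ × ℕ}, w ∈ q ∪ idOn Oᶜ → w' ∈ q ∪ idOn Oᶜ →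
      ∃ s, w ∈ s ∧ w' ∈ s ∧ PIso (lift R) (lift V) s := by
    intro w w' hw hw'
    obtain ⟨s, h1, h2, h3⟩ := ext1 (o' := 1) (by norm_num) h hw subset_rfl
    obtain ⟨s', h4, h5, h6⟩ := ext1 (o' := 0) zero_lt_one h3 hw' h1
    refine ⟨s', h4 h2, h5, ?_⟩
    have h7 := h6.piso
    unfold Nm at h7
    rw [piso_ex] at h7
    exact h7.1
  rw [piso_iff]
  refine ⟨?_, ?_, ?_, ?_⟩
  · intro w hw w' hw'
    obtain ⟨s, h1, h2, h3⟩ := two hw hw'
    exact (piso_iff.1 h3).1 w h1 w' h2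
  · intro w hw w' hw'
    obtain ⟨s, h1, h2, h3⟩ := two hw hw'
    exact (piso_iff.1 h3).2.1 w h1 w' h2
  · intro n w hw w' hw'
    obtain ⟨s, h1, h2, h3⟩ := two hw hw'
    exact (piso_iff.1 h3).2.2.1 n w h1 w' h2
  · intro n w hw
    obtain ⟨s, h1, h2, h3⟩ := two hw hw
    exact (piso_iff.1 h3).2.2.2 n w h1

theorem nm_bwd {R V : R2} {O : Set ℕ} {q : Set (ℕ × ℕ)} (hq : idOn Oᶜ ⊆ q)
    (h : PIso (lift R) (lift V) q) : PIso (lift (Nm O R)) (lift (Nm O V)) q := by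
  unfold Nm
  rw [piso_ex]
  refine ⟨h, ?_⟩
  rintro k ⟨a, b⟩ hw
  constructor
  · rintro ⟨h1, h2⟩
    simp only at h1 h2 ⊢
    subst h1
    have h3 : (a, a) ∈ q := hq ⟨rfl, h2⟩
    have h4 : b = a := (piso_eq h hw h3).1 rfl
    exact ⟨h4, h4 ▸ h2⟩
  · rintro ⟨h1, h2⟩
    simp only at h1 h2 ⊢
    subst h1
    have h3 : (b, b) ∈ q := hq ⟨rfl, h2⟩
    have h4 : a = b := (piso_eq h hw h3).2 rfl
    exact ⟨h4, h4 ▸ h2⟩

theorem nat_add {n : ℕ} {o : Ordinal.{0}} (ho : Ordinal.omega0 ≤ o) : (n : Ordinal.{0}) + o = o :=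
  Ordinal.natCast_add_of_omega0_le ho n

theorem t_TRQ (hE : S_EXT) : S_TRQ := by
  refine ⟨?_, ?_, ?_, ?_, ?_, ?_, ?_⟩
  · intro R R' q y y' v v' m h hy hv
    exact q1 h hy hv
  · intro R R' q u u' v v' t t' h hu hv ht
    exact ob2 h hu hv ht
  · intro R R' p u u' v v' o ho h hu hv
    have h3 : ((3 : ℕ) : Ordinal.{0}) + o = o := nat_add ho
    have := hE R R' (lb R u) (lb R' u') univ univ (Ob R u v) (Ob R' u' v') p ∅ ((3 : ℕ))
      (subset_univ _) (subset_univ _) (fun q hq hb => ?_) o (by rw [h3]; exact h)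
    · rwa [union_empty] at this
    · refine ⟨?_, fun w hw => ?_⟩
      · rw [union_empty]
        exact piso_lb (hb.mono (by norm_num)) (hq hu) fun w hw => hw.1
      · exact ob2 (hb.mono (by norm_num)) (hq hu) (hq hv) hw
  · intro R R' p u u' v v' h hu hv
    obtain ⟨q, h1, h2, h3, h4, h5⟩ := h
    have hb : ∀ o, BF (lift R) (lift R') univ univ o q := fun o => BF_of_total h2 h3 h4 h5
    have hob : ∀ w ∈ q, (w.1 ∈ Ob R u v ↔ w.2 ∈ Ob R' u' v') := fun w hw =>
      ob2 (hb 3) (h1 hu) (h1 hv) hw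
    refine ⟨{w | w ∈ q ∧ w.1 ∈ Ob R u v}, ?_, ?_, ?_, ?_, ?_⟩
    · exact fun w hw => ⟨h1 hw.1, hw.2⟩
    · exact fun w hw => ⟨hw.2, (hob w hw.1).1 hw.2⟩
    · exact piso_lb (hb 1) (h1 hu) fun w hw => hw.1
    · intro x hx
      obtain ⟨y, hy⟩ := h4 x (mem_univ _)
      exact ⟨y, hy, hx⟩
    · intro y hy
      obtain ⟨x, hx⟩ := h5 y (mem_univ _)
      exact ⟨x, hx, (hob _ hx).2 hy⟩
  · intro R R' p u u' o ho h hu
    have h3 : ((1 : ℕ) : Ordinal.{0}) + o = o := nat_add ho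
    have := hE R R' (lb R u) (lb R' u') univ univ univ univ p ∅ ((1 : ℕ))
      (subset_univ _) (subset_univ _) (fun q hq hb => ?_) o (by rw [h3]; exact h)
    · rw [union_empty] at this
      exact this.subset fun w hw => ⟨hw, mem_univ _⟩
    · refine ⟨?_, fun w hw => by simp⟩
      rw [union_empty]
      exact piso_lb (hb.mono (by norm_num)) (hq hu) fun w hw => hw.1
  · intro R V O o ho
    constructor
    · intro h
      have h3 : ((2 : ℕ) : Ordinal.{0}) + o = o := nat_add ho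
      have := hE (Nm O R) (Nm O V) R V univ univ univ univ ∅ (idOn Oᶜ) ((2 : ℕ))
        (subset_univ _) (subset_univ _) (fun q hq hb => ?_) o (by rw [h3]; exact h)
      · exact this.subset subset_union_right
      · refine ⟨?_, fun w hw => by simp⟩
        exact (nm_fwd (hb.mono (by norm_num))).mono
          (union_subset_union (fun w hw => hw.1) subset_rfl)
    · intro h
      have := hE R V (Nm O R) (Nm O V) univ univ univ univ (idOn Oᶜ) ∅ 0
        (subset_univ _) (subset_univ _) (fun q hq hb => ?_) o (by rw [zero_add]; exact h)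
      · exact this.subset (empty_subset _)
      · refine ⟨?_, fun w hw => by simp⟩
        rw [union_empty]
        exact (nm_bwd hq hb.piso).mono fun w hw => hw.1
  · intro R V O
    rw [riso_isoOn]
    constructor
    · rintro ⟨q, h1, h2, h3, h4, h5⟩
      have hb : BF (lift (Nm O R)) (lift (Nm O V)) univ univ 2 q := BF_of_total h2 h3 h4 h5
      have h6 := nm_fwd hb
      refine ⟨q ∪ idOn Oᶜ, subset_union_right, ?_, h6, ?_, ?_⟩
      · exact fun w hw => ⟨mem_univ _, mem_univ _⟩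
      · intro x hx
        obtain ⟨y, hy⟩ := h4 x hx
        exact ⟨y, Or.inl hy⟩
      · intro y hy
        obtain ⟨x, hx⟩ := h5 y hy
        exact ⟨x, Or.inl hx⟩
    · rintro ⟨q, h1, h2, h3, h4, h5⟩
      exact ⟨q, empty_subset _, h2, nm_bwd h1 h3, h4, h5⟩

end Pool.Agent.Y275.TG
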